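import Mathlib.Data.ZMod.Basic
import Mathlib.Tactic

/-!
A kernel-evaluated elimination showing that every six of the twenty points are linearly
independent modulo the prime 5303.
-/

namespace Pool.Agent.Lib_MP_8a2735_ag

/-- A vector of six natural numbers (residues modulo 5303). -/
structure V6 where
  (a b c d e f : ℕ)

/-- The prime modulus. -/
abbrev pr : ℕ := 5303

/-- Dot product modulo 5303. -/
def dot (u v : V6) : ℕ :=
  (u.a * v.a + u.b * v.b + u.c * v.c + u.d * v.d + u.e * v.e + u.f * v.f) % 5303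

/-- `x * u - y * w` modulo 5303 (with `-1` represented by `5302`). -/
def comb (x : ℕ) (u : V6) (y : ℕ) (w : V6) : V6 :=
  ⟨(x * u.a + 5302 * (y * w.a)) % 5303, (x * u.b + 5302 * (y * w.b)) % 5303,
    (x * u.c + 5302 * (y * w.c)) % 5303, (x * u.d + 5302 * (y * w.d)) % 5303,
    (x * u.e + 5302 * (y * w.e)) % 5303, (x * u.f + 5302 * (y * w.f)) % 5303⟩

/-- One elimination step: from forms `B`, make forms spanning those vanishing at `v`. -/
def step (v : V6) : List V6 → Option (List V6)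
  | [] => none
  | u :: B =>
    match dot u v with
    | 0 => (step v B).map (fun B' => u :: B')
    | (n + 1) => some (B.map (fun w => comb (n + 1) w (dot w v) u))

/-- Depth-first check over all sublists of length `k`. -/
def go : List V6 → ℕ → List V6 → Bool
  | _, 0, B => B.isEmpty
  | [], _ + 1, _ => true
  | v :: vs, k + 1, B =>
    (match step v B with
      | none => false
      | some B' => go vs k B') && go vs (k + 1) B

/-- The twenty points modulo 5303. -/
def ptsMod : List V6 := [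
  ⟨1, 1, 1, 1, 3459, 1614⟩,
  ⟨1, 5302, 1, 5302, 3459, 3689⟩,
  ⟨1, 3, 9, 27, 3539, 5082⟩,
  ⟨1, 5300, 9, 5276, 3539, 221⟩,
  ⟨1, 10, 100, 1000, 2852, 4767⟩,
  ⟨1, 5293, 100, 4303, 2852, 536⟩,
  ⟨1, 14, 196, 2744, 4753, 3591⟩,
  ⟨1, 5289, 196, 2559, 4753, 1712⟩,
  ⟨1, 18, 324, 529, 2374, 4219⟩,
  ⟨1, 5285, 324, 4774, 2374, 1084⟩,
  ⟨1, 6, 36, 216, 3141, 3401⟩,
  ⟨1, 5297, 36, 5087, 3141, 1902⟩,
  ⟨1, 7, 49, 343, 4246, 213⟩,
  ⟨1, 5296, 49, 4960, 4246, 5090⟩,
  ⟨1, 8, 64, 512, 638, 3955⟩,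
  ⟨1, 5295, 64, 4791, 638, 1348⟩,
  ⟨1, 15, 225, 3375, 4743, 3366⟩,
  ⟨1, 5288, 225, 1928, 4743, 1937⟩,
  ⟨1, 16, 256, 4096, 3745, 4592⟩,
  ⟨1, 5287, 256, 1207, 3745, 711⟩]

/-- The six coordinate forms. -/
def basis6 : List V6 := [⟨1, 0, 0, 0, 0, 0⟩, ⟨0, 1, 0, 0, 0, 0⟩, ⟨0, 0, 1, 0, 0, 0⟩,
  ⟨0, 0, 0, 1, 0, 0⟩, ⟨0, 0, 0, 0, 1, 0⟩, ⟨0, 0, 0, 0, 0, 1⟩]

theorem go_pts : go ptsMod 6 basis6 = true := by decide +kernel

/-! ### Correctness of the elimination -/

instance factPrime5303 : Fact (Nat.Prime 5303) := ⟨by norm_num⟩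

/-- The vector over `ZMod 5303` given by a `V6`. -/
def toF (u : V6) : Fin 6 → ZMod 5303 :=
  ![(u.a : ZMod 5303), u.b, u.c, u.d, u.e, u.f]

lemma dot_cast (u v : V6) : ((dot u v : ℕ) : ZMod 5303) = toF u ⬝ᵥ toF v := by
  simp [dot, toF, dotProduct, Fin.sum_univ_succ]
  ring

lemma five_cast : ((5302 : ℕ) : ZMod 5303) = -1 := by
  decide +kernel

lemma comb_cast (x : ℕ) (u : V6) (y : ℕ) (w : V6) :
    toF (comb x u y w) = (x : ZMod 5303) • toF u - (y : ZMod 5303) • toF w := by
  have h := five_cast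
  ext i
  fin_cases i <;> simp [comb, toF] <;> (push_cast at h ⊢; rw [h]; ring)

/-- `m` is a linear combination of the forms in the list. -/
def Sp : List V6 → (Fin 6 → ZMod 5303) → Prop
  | [], m => m = 0
  | u :: B, m => ∃ c : ZMod 5303, Sp B (m - c • toF u)

lemma Sp_smul (c : ZMod 5303) : ∀ (B : List V6) (m : Fin 6 → ZMod 5303), Sp B m → Sp B (c • m)
  | [], m, h => by
    simp only [Sp] at h ⊢
    rw [h, smul_zero]
  | u :: B, m, h => by
    obtain ⟨a, ha⟩ := h
    refine ⟨c * a, ?_⟩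
    have := Sp_smul c B _ ha
    rwa [smul_sub, smul_smul] at this

lemma Sp_map (v u : V6) (x : ℕ) : ∀ (B : List V6) (m : Fin 6 → ZMod 5303), Sp B m →
    Sp (B.map (fun w => comb x w (dot w v) u)) ((x : ZMod 5303) • m - (m ⬝ᵥ toF v) • toF u)
  | [], m, h => by
    simp only [Sp] at h
    subst h
    simp [Sp]
  | w :: B, m, h => by
    obtain ⟨c, hc⟩ := h
    refine ⟨c, ?_⟩
    have := Sp_map v u x B _ hc
    convert this using 1
    rw [comb_cast, dot_cast, sub_dotProduct, smul_dotProduct]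
    module

lemma dot_lt (u v : V6) : dot u v < 5303 := Nat.mod_lt _ (by norm_num)

lemma step_spec (v : V6) : ∀ (B B' : List V6) (m : Fin 6 → ZMod 5303), step v B = some B' →
    Sp B m → m ⬝ᵥ toF v = 0 → Sp B' m
  | [], B', m, h, _, _ => by simp [step] at h
  | u :: B, B', m, h, hm, h0 => by
    obtain ⟨c, hc⟩ := hm
    have hd := dot_cast u v
    have hlt := dot_lt u v
    unfold step at h
    rcases hn : dot u v with _ | n
    · rw [hn] at h hd
      simp only [Nat.cast_zero] at hd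
      rw [Option.map_eq_some_iff] at h
      obtain ⟨B'', hB, rfl⟩ := h
      refine ⟨c, ?_⟩
      refine step_spec v B B'' _ hB hc ?_
      rw [sub_dotProduct, smul_dotProduct, ← hd, h0]
      simp
    · rw [hn] at h hd hlt
      simp only [Option.some.injEq] at h
      subst h
      have hne : ((n + 1 : ℕ) : ZMod 5303) ≠ 0 := by
        intro h1
        rw [ZMod.natCast_eq_zero_iff] at h1
        exact absurd (Nat.le_of_dvd (Nat.succ_pos n) h1) (not_le.mpr hlt)
      have key := Sp_map v u (n + 1) B _ hc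
      have key2 := Sp_smul (((n + 1 : ℕ) : ZMod 5303)⁻¹) _ _ key
      convert key2 using 1
      rw [sub_dotProduct, smul_dotProduct, h0, ← hd]
      have : ((n + 1 : ℕ) : ZMod 5303) • (m - c • toF u) -
          ((0 : ZMod 5303) - c • ((n + 1 : ℕ) : ZMod 5303)) • toF u =
          ((n + 1 : ℕ) : ZMod 5303) • m := by
        simp only [smul_eq_mul]
        module
      rw [this, smul_smul, inv_mul_cancel₀ hne, one_smul]

theorem go_spec : ∀ (vs : List V6) (k : ℕ) (B : List V6), go vs k B = true →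
    ∀ s : List V6, s.Sublist vs → s.length = k → ∀ m : Fin 6 → ZMod 5303, Sp B m →
      (∀ v ∈ s, m ⬝ᵥ toF v = 0) → m = 0
  | vs, 0, B, h, s, _, _, m, hm, _ => by
    have : B = [] := by
      cases vs <;> simpa [go] using h
    subst this
    exact hm
  | [], k + 1, B, _, s, hs, hl, m, _, _ => by
    have : s = [] := List.sublist_nil.mp hs
    subst this
    simp at hl
  | v :: vs, k + 1, B, h, s, hs, hl, m, hm, h0 => by
    simp only [go, Bool.and_eq_true] at h
    obtain ⟨h1, h2⟩ := h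
    rcases List.sublist_cons_iff.mp hs with hs' | ⟨s', rfl, hs'⟩
    · exact go_spec vs (k + 1) B h2 s hs' hl m hm h0
    · rcases hst : step v B with _ | B'
      · rw [hst] at h1
        simp at h1
      · rw [hst] at h1
        have hm' := step_spec v B B' m hst hm (h0 v (by simp))
        exact go_spec vs k B' h1 s' hs' (by simpa using hl) m hm'
          (fun w hw => h0 w (by simp [hw]))

lemma Sp_basis6 (m : Fin 6 → ZMod 5303) : Sp basis6 m := by
  refine ⟨m 0, m 1, m 2, m 3, m 4, m 5, ?_⟩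
  simp only [Sp]
  ext i
  fin_cases i <;> simp [toF] <;> exact sub_self _

/-- Any six of the twenty points are independent modulo 5303. -/
theorem indep_mod (T : Finset (Fin 20)) (hT : T.card = 6) (m : Fin 6 → ZMod 5303)
    (h : ∀ k ∈ T, m ⬝ᵥ toF (ptsMod.get (Fin.cast (by rfl) k)) = 0) : m = 0 := by
  have hlen : ptsMod.length = 20 := by rfl
  set f : Fin 20 → V6 := fun k => ptsMod.get (Fin.cast (by rfl) k) with hf
  have hmap : (List.finRange 20).map f = ptsMod := by rfl
  have hsub : (((List.finRange 20).filter (· ∈ T)).map f).Sublist ptsMod := by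
    conv_rhs => rw [← hmap]
    exact List.Sublist.map f List.filter_sublist
  refine go_spec ptsMod 6 basis6 go_pts _ hsub ?_ m (Sp_basis6 m) ?_
  · rw [List.length_map]
    have hnd : ((List.finRange 20).filter (· ∈ T)).Nodup := (List.nodup_finRange 20).filter _
    rw [← List.toFinset_card_of_nodup hnd, ← hT]
    congr 1
    ext k
    simp
  · intro v hv
    rw [List.mem_map] at hv
    obtain ⟨k, hk, rfl⟩ := hv
    rw [List.mem_filter] at hk
    exact h k (by simpa using hk.2)

end Pool.Agent.Lib_MP_8a2735_ag
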