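import Mathlib
import Pool.Agent.Lib_MP_8a2735_ag.Comp

/-!
Twenty integer points of projective 5-space: integer data, linear general position over every
field of characteristic zero, the relation on cubics, and the resulting description of the
annihilators of the spaces of forms.
-/

namespace Pool.Agent.Lib_MP_8a2735_ag

open MvPolynomial

/-- The parameters of the twenty points. -/
def xs : Fin 20 → ℤ :=
  ![1, -1, 3, -3, 10, -10, 14, -14, 18, -18, 6, -6, 7, -7, 8, -8, 15, -15, 16, -16]

/-- The sheet of the point: `1845` on the first curve, `-1845` on the second one. -/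
def hs (k : Fin 20) : ℤ := if k < 10 then 1845 else -1845

/-- The twenty integer points. -/
def P (k : Fin 20) : Fin 6 → ℤ :=
  ![1, xs k, xs k ^ 2, xs k ^ 3, xs k ^ 4 - hs k, xs k ^ 5 - 2 * hs k * xs k]

/-- The weights of the unique relation on cubic forms. -/
def lam : Fin 20 → ℤ :=
  ![107326464, -107326464, -41616384, 41616384, 2763588, -2763588, -853461, 853461, 101959, -101959, -58956544, 58956544, 107659776, -107659776, -51546924, 51546924, 2149888, -2149888, -1234506, 1234506]


lemma lam_ne (k : Fin 20) : lam k ≠ 0 := by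
  revert k; decide +kernel

lemma lam_cubic (i j l : Fin 6) : ∑ k, lam k * (P k i * P k j * P k l) = 0 := by
  revert i j l; decide +kernel

/-- First and second indices of the fourteen quadratic monomials. -/
def mon1 : Fin 14 → Fin 6 := ![0, 0, 0, 0, 0, 0, 1, 1, 1, 2, 2, 3, 3, 4]
def mon2 : Fin 14 → Fin 6 := ![0, 1, 2, 3, 4, 5, 3, 4, 5, 4, 5, 4, 5, 5]

/-- The matrix of fourteen quadratic monomials at the first fourteen points. -/
def Mz : Matrix (Fin 14) (Fin 14) ℤ := fun i k =>
  P (Fin.castLE (by norm_num) k) (mon1 i) * P (Fin.castLE (by norm_num) k) (mon2 i)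

/-- An inverse of `Mz` modulo 5303. -/
def Nz : Matrix (Fin 14) (Fin 14) ℤ :=
  ![![5292, 1018, 2230, 103, 1132, 4383, 2450, 1470, 4324, 4611, 1805, 1827, 2338, 2338],
    ![5292, 4285, 2230, 5200, 1132, 920, 2450, 3833, 4324, 4611, 3498, 3476, 2338, 2965],
    ![4326, 1043, 3034, 4686, 5177, 3809, 3568, 5260, 4421, 2713, 1765, 613, 4856, 5154],
    ![4326, 4260, 3034, 617, 5177, 1494, 3568, 43, 4421, 2713, 3538, 4690, 4856, 149],
    ![2599, 1492, 1584, 3516, 30, 950, 3656, 1388, 1019, 150, 4278, 4854, 2129, 3925],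
    ![2599, 3811, 1584, 1787, 30, 4353, 3656, 3915, 1019, 150, 1025, 449, 2129, 1378],
    ![1406, 1000, 4093, 1800, 5245, 5227, 2613, 3378, 4804, 484, 2428, 980, 5022, 3389],
    ![1406, 4303, 4093, 3503, 5245, 76, 2613, 1925, 4804, 484, 2875, 4323, 5022, 1914],
    ![3612, 3245, 4968, 2636, 4445, 2195, 3502, 2118, 1341, 2648, 4768, 462, 1564, 3033],
    ![3612, 2058, 4968, 2667, 4445, 3108, 3502, 3185, 1341, 2648, 535, 4841, 1564, 2270],
    ![4998, 833, 5201, 5286, 3219, 3188, 2084, 2115, 1233, 4070, 2857, 2446, 0, 0],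
    ![4998, 4470, 5201, 17, 3219, 2115, 2084, 3188, 1233, 4070, 2446, 2857, 0, 0],
    ![1631, 233, 102, 4560, 1964, 4826, 3339, 477, 4070, 1233, 1339, 3964, 0, 0],
    ![1631, 5070, 102, 743, 1964, 477, 3339, 4826, 4070, 1233, 3964, 1339, 0, 0]]

lemma Mz_Nz : ∀ i j, (∑ k, Mz i k * Nz k j) % 5303 = if i = j then 1 else 0 := by
  decide +kernel

lemma det_Mz_ne : Mz.det ≠ 0 := by
  intro h
  have h1 : (Mz * Nz).map (Int.castRingHom (ZMod 5303)) = 1 := by
    ext i j
    have := Mz_Nz i j
    rw [Matrix.map_apply, Matrix.mul_apply]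
    have h2 : ((∑ k, Mz i k * Nz k j : ℤ) : ZMod 5303) =
        (((∑ k, Mz i k * Nz k j) % 5303 : ℤ) : ZMod 5303) := by
      have := (ZMod.intCast_mod (∑ k, Mz i k * Nz k j) 5303).symm
      exact_mod_cast this
    rw [eq_intCast, h2, this, Matrix.one_apply]
    split_ifs <;> simp
  have h3 : ((Mz * Nz).map (Int.castRingHom (ZMod 5303))).det = 1 := by rw [h1, Matrix.det_one]
  have h4 := RingHom.map_det (Int.castRingHom (ZMod 5303)) (Mz * Nz)
  rw [Matrix.det_mul, h, zero_mul, map_zero] at h4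
  rw [RingHom.mapMatrix_apply, h3] at h4
  exact zero_ne_one h4

lemma P_mod (k : Fin 20) (j : Fin 6) :
    ((P k j : ℤ) : ZMod 5303) = toF (ptsMod.get (Fin.cast (by rfl) k)) j := by
  revert k j; decide +kernel

/-- The matrix of six of the points. -/
def M6 (T : Finset (Fin 20)) (hT : T.card = 6) : Matrix (Fin 6) (Fin 6) ℤ :=
  fun a b => P (T.orderEmbOfFin hT a) b

lemma det_M6_ne (T : Finset (Fin 20)) (hT : T.card = 6) : (M6 T hT).det ≠ 0 := by
  intro h
  have h1 : ((M6 T hT).map (Int.castRingHom (ZMod 5303))).det = 0 := by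
    have := RingHom.map_det (Int.castRingHom (ZMod 5303)) (M6 T hT)
    rw [h, map_zero] at this
    exact this.symm
  obtain ⟨v, hv, hv0⟩ := Matrix.exists_mulVec_eq_zero_iff.mpr h1
  apply hv
  refine indep_mod T hT v ?_
  intro k hk
  have hk' : k ∈ Set.range (T.orderEmbOfFin hT) := by
    rw [Finset.range_orderEmbOfFin]; exact hk
  obtain ⟨a, rfl⟩ := hk'
  have := congrFun hv0 a
  rw [Matrix.mulVec, Pi.zero_apply, dotProduct_comm] at this
  rw [← this]
  congr 1
  ext j
  rw [← P_mod]
  rfl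

variable {K : Type*} [Field K]

/-- The twenty points over `K`. -/
def V (K : Type*) [Field K] (k : Fin 20) : Fin 6 → K := fun j => (P k j : K)

/-- The weights over `K`. -/
def Lam (K : Type*) [Field K] (k : Fin 20) : K := (lam k : K)

variable [CharZero K]

lemma Lam_ne (k : Fin 20) : Lam K k ≠ 0 := by
  unfold Lam; exact_mod_cast lam_ne k

lemma det_M6K_ne (T : Finset (Fin 20)) (hT : T.card = 6) :
    ((M6 T hT).map (Int.castRingHom K)).det ≠ 0 := by
  have := RingHom.map_det (Int.castRingHom K) (M6 T hT)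
  rw [RingHom.mapMatrix_apply] at this
  rw [← this, eq_intCast]
  exact_mod_cast det_M6_ne T hT

/-- A linear form vanishing at six of the points is zero. -/
lemma indepK (T : Finset (Fin 20)) (hT : T.card = 6) (m : Fin 6 → K)
    (h : ∀ k ∈ T, m ⬝ᵥ V K k = 0) : m = 0 := by
  refine Matrix.eq_zero_of_mulVec_eq_zero (det_M6K_ne (K := K) T hT) ?_
  ext a
  rw [Matrix.mulVec, Pi.zero_apply, dotProduct_comm]
  exact h _ (Finset.orderEmbOfFin_mem T hT a)

/-- Interpolation by a linear form at six of the points. -/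
lemma interp (T : Finset (Fin 20)) (hT : T.card = 6) (c : Fin 20 → K) :
    ∃ m : Fin 6 → K, ∀ k ∈ T, m ⬝ᵥ V K k = c k := by
  set A := (M6 T hT).map (Int.castRingHom K) with hA
  have hu : IsUnit A.det := isUnit_iff_ne_zero.mpr (det_M6K_ne (K := K) T hT)
  refine ⟨A⁻¹.mulVec (fun a => c (T.orderEmbOfFin hT a)), ?_⟩
  intro k hk
  have hk' : k ∈ Set.range (T.orderEmbOfFin hT) := by
    rw [Finset.range_orderEmbOfFin]; exact hk
  obtain ⟨a, rfl⟩ := hk'
  have h1 : A.mulVec (A⁻¹.mulVec (fun a => c (T.orderEmbOfFin hT a))) =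
      fun a => c (T.orderEmbOfFin hT a) := by
    rw [Matrix.mulVec_mulVec, Matrix.mul_nonsing_inv _ hu, Matrix.one_mulVec]
  have h2 := congrFun h1 a
  rw [dotProduct_comm]
  exact h2

/-- The points (of any subset of six) span: a relation among six points is trivial. -/
lemma indepK' (T : Finset (Fin 20)) (hT : T.card = 6) (μ : Fin 20 → K)
    (hμ : ∀ k, k ∉ T → μ k = 0) (h : ∀ j, ∑ k, μ k * V K k j = 0) : μ = 0 := by
  ext k
  by_cases hk : k ∈ T
  · obtain ⟨m, hm⟩ := interp (K := K) T hT (fun i => if i = k then 1 else 0)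
    have h1 : ∑ i, μ i * (m ⬝ᵥ V K i) = 0 := by
      have : ∀ i, μ i * (m ⬝ᵥ V K i) = ∑ j, m j * (μ i * V K i j) := by
        intro i
        rw [dotProduct, Finset.mul_sum]
        exact Finset.sum_congr rfl (fun j _ => by ring)
      simp_rw [this]
      rw [Finset.sum_comm]
      simp_rw [← Finset.mul_sum, h]
      simp
    have h2 : ∑ i, μ i * (m ⬝ᵥ V K i) = μ k := by
      rw [Finset.sum_eq_single k]
      · rw [hm k hk]; simp
      · intro i _ hi
        by_cases hiT : i ∈ T
        · rw [hm i hiT]; simp [hi]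
        · rw [hμ i hiT]; simp
      · simp
    rw [h2] at h1
    exact h1
  · exact hμ k hk

end Pool.Agent.Lib_MP_8a2735_ag
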