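import Mathlib
import Pool.Agent.Lib_MP_8a2735_ag.Points

/-!
Annihilators of the spaces of forms on the twenty points, and interpolation by forms.
-/

namespace Pool.Agent.Lib_MP_8a2735_ag

open MvPolynomial
open scoped Pointwise

variable {K : Type*} [Field K]

/-- `μ` kills all forms of degree `d` on the twenty points. -/
def Ann (d : ℕ) (μ : Fin 20 → K) : Prop :=
  ∀ f : MvPolynomial (Fin 6) K, f.IsHomogeneous d → ∑ k, μ k * eval (V K k) f = 0

/-- The linear form with given coefficients. -/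
noncomputable def lin (m : Fin 6 → K) : MvPolynomial (Fin 6) K := ∑ j, C (m j) * X j

lemma lin_hom (m : Fin 6 → K) : (lin m).IsHomogeneous 1 :=
  IsHomogeneous.sum _ _ _ (fun _ _ => isHomogeneous_C_mul_X _ _)

lemma eval_lin (m : Fin 6 → K) (v : Fin 6 → K) : eval v (lin m) = m ⬝ᵥ v := by
  simp [lin, dotProduct]

lemma Ann.mul {d : ℕ} {μ : Fin 20 → K} (h : Ann (d + 1) μ) (m : Fin 6 → K) :
    Ann d (fun k => μ k * (m ⬝ᵥ V K k)) := by
  intro f hf
  have := h (lin m * f) (by rw [add_comm]; exact (lin_hom m).mul hf)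
  rw [← this]
  refine Finset.sum_congr rfl (fun k _ => ?_)
  rw [map_mul, eval_lin]
  ring

lemma Ann.add {d : ℕ} {μ ν : Fin 20 → K} (h : Ann d μ) (h' : Ann d ν) :
    Ann d (fun k => μ k + ν k) := by
  intro f hf
  simp only [add_mul, Finset.sum_add_distrib, h f hf, h' f hf, add_zero]

lemma Ann.smul {d : ℕ} {μ : Fin 20 → K} (h : Ann d μ) (c : K) :
    Ann d (fun k => c * μ k) := by
  intro f hf
  simp only [mul_assoc, ← Finset.mul_sum, h f hf, mul_zero]

/-- The evaluation functional attached to weights. -/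
noncomputable def phi (μ : Fin 20 → K) : MvPolynomial (Fin 6) K →ₗ[K] K where
  toFun f := ∑ k, μ k * eval (V K k) f
  map_add' f g := by simp [mul_add, Finset.sum_add_distrib]
  map_smul' c f := by
    simp only [smul_eval, RingHom.id_apply, smul_eq_mul, Finset.mul_sum]
    exact Finset.sum_congr rfl (fun k _ => by ring)

/-- The weights `Lam` kill all cubic forms. -/
lemma ann3_Lam : Ann 3 (Lam K) := by
  intro f hf
  have hf' : f ∈ Submodule.span K ((Set.range (X : Fin 6 → MvPolynomial (Fin 6) K)) ^ 3) := by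
    rw [← Submodule.span_pow, ← homogeneousSubmodule_one_eq_span_X, homogeneousSubmodule_one_pow]
    exact hf
  have key : Submodule.span K ((Set.range (X : Fin 6 → MvPolynomial (Fin 6) K)) ^ 3) ≤
      LinearMap.ker (phi (Lam K)) := by
    rw [Submodule.span_le]
    intro g hg
    rw [pow_succ, pow_two] at hg
    obtain ⟨a, ⟨b, ⟨i, rfl⟩, c, ⟨j, rfl⟩, rfl⟩, d, ⟨l, rfl⟩, rfl⟩ := hg
    rw [SetLike.mem_coe, LinearMap.mem_ker]
    have := lam_cubic i j l
    have h2 : ((∑ k, lam k * (P k i * P k j * P k l) : ℤ) : K) = 0 := by rw [this]; simp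
    rw [← h2, Int.cast_sum]
    show ∑ k, Lam K k * eval (V K k) (X i * X j * X l) = _
    refine Finset.sum_congr rfl (fun k _ => ?_)
    simp [V, Lam]
  exact key hf'

variable [CharZero K]

lemma ann2_supp {μ : Fin 20 → K} (h : Ann 2 μ) (hs : ∀ k : Fin 20, 14 ≤ k.val → μ k = 0) :
    μ = 0 := by
  have hdet : (Mz.map (Int.castRingHom K)).det ≠ 0 := by
    have := RingHom.map_det (Int.castRingHom K) Mz
    rw [RingHom.mapMatrix_apply] at this
    rw [← this, eq_intCast]
    exact_mod_cast det_Mz_ne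
  have h0 : (fun a : Fin 14 => μ (Fin.castLE (by norm_num) a)) = 0 := by
    refine Matrix.eq_zero_of_mulVec_eq_zero hdet ?_
    ext i
    have h1 := h (X (mon1 i) * X (mon2 i)) ((isHomogeneous_X _ _).mul (isHomogeneous_X _ _))
    have h2 : ∑ k ∈ Finset.univ.map (Fin.castLEEmb (show 14 ≤ 20 by norm_num)),
        μ k * eval (V K k) (X (mon1 i) * X (mon2 i)) =
        ∑ k, μ k * eval (V K k) (X (mon1 i) * X (mon2 i)) := by
      refine Finset.sum_subset (Finset.subset_univ _) ?_
      intro k _ hk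
      rw [hs k, zero_mul]
      by_contra hlt
      apply hk
      rw [Finset.mem_map]
      exact ⟨⟨k.val, not_le.mp hlt⟩, Finset.mem_univ _, rfl⟩
    rw [Finset.sum_map] at h2
    rw [Matrix.mulVec, Pi.zero_apply, dotProduct, ← h1, ← h2]
    refine Finset.sum_congr rfl (fun k _ => ?_)
    simp only [Matrix.map_apply, Mz, map_mul, eval_X, V, eq_intCast, Int.cast_mul]
    rw [mul_comm]
    rfl
  ext k
  by_cases hk : k.val < 14
  · exact congrFun h0 ⟨k.val, hk⟩
  · exact hs k (not_lt.mp hk)

lemma ann2_char {μ : Fin 20 → K} (h : Ann 2 μ) :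
    ∃ m : Fin 6 → K, ∀ k, μ k = Lam K k * (m ⬝ᵥ V K k) := by
  obtain ⟨m, hm⟩ := interp (K := K) (Finset.univ.filter (fun k : Fin 20 => 14 ≤ k.val))
    (by decide) (fun k => μ k / Lam K k)
  refine ⟨m, ?_⟩
  have h1 : Ann 2 (fun k => μ k + (-1) * (Lam K k * (m ⬝ᵥ V K k))) :=
    h.add ((ann3_Lam.mul m).smul (-1))
  have h2 := ann2_supp h1 (by
    intro k hk
    rw [hm k (by simp [hk])]
    field_simp [Lam_ne (K := K) k]
    ring)
  intro k
  have := congrFun h2 k
  simp only [Pi.zero_apply] at this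
  linear_combination this

/-- For two distinct points there is a linear form vanishing at five other points and nonzero at
both. -/
lemma exists_five (j k : Fin 20) (hjk : j ≠ k) :
    ∃ S : Finset (Fin 20), S.card = 5 ∧ j ∉ S ∧ k ∉ S := by
  have : ∃ S ⊆ (Finset.univ \ {j, k} : Finset (Fin 20)), S.card = 5 := by
    apply Finset.exists_subset_card_eq
    rw [Finset.card_sdiff_of_subset (Finset.subset_univ _), Finset.card_pair hjk]
    simp
  obtain ⟨S, hS, hc⟩ := this
  refine ⟨S, hc, fun hj => ?_, fun hk => ?_⟩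
  · have := hS hj; simp at this
  · have := hS hk; simp at this

lemma ann3_char {μ : Fin 20 → K} (h : Ann 3 μ) : ∃ c : K, ∀ k, μ k = c * Lam K k := by
  refine ⟨μ 0 / Lam K 0, ?_⟩
  intro k
  by_cases hk0 : k = 0
  · subst hk0; field_simp [Lam_ne (K := K) 0]
  obtain ⟨S, hS, h0S, hkS⟩ := exists_five 0 k (Ne.symm hk0)
  have hT : (insert 0 S).card = 6 := by rw [Finset.card_insert_of_notMem h0S, hS]
  have hTk : (insert k S).card = 6 := by rw [Finset.card_insert_of_notMem hkS, hS]
  obtain ⟨m, hm⟩ := interp (K := K) (insert 0 S) hT (fun i => if i = 0 then 1 else 0)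
  have hm0 : m ⬝ᵥ V K 0 = 1 := by rw [hm 0 (by simp)]; simp
  have hmS : ∀ i ∈ S, m ⬝ᵥ V K i = 0 := by
    intro i hi
    rw [hm i (by simp [hi])]
    have : i ≠ 0 := fun h => h0S (h ▸ hi)
    simp [this]
  have hmk : m ⬝ᵥ V K k ≠ 0 := by
    intro hz
    have : m = 0 := by
      refine indepK (insert k S) hTk m ?_
      intro i hi
      rcases Finset.mem_insert.mp hi with rfl | hi
      · exact hz
      · exact hmS i hi
    rw [this] at hm0
    simp at hm0
  obtain ⟨m', hm'⟩ := ann2_char (h.mul m)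
  -- m' vanishes on S
  have hm'S : ∀ i ∈ S, m' ⬝ᵥ V K i = 0 := by
    intro i hi
    have := hm' i
    rw [hmS i hi, mul_zero] at this
    rcases mul_eq_zero.mp this.symm with h1 | h1
    · exact absurd h1 (Lam_ne i)
    · exact h1
  have hprop : m' - (m' ⬝ᵥ V K 0) • m = 0 := by
    refine indepK (insert 0 S) hT _ ?_
    intro i hi
    rw [sub_dotProduct, smul_dotProduct]
    rcases Finset.mem_insert.mp hi with rfl | hi
    · rw [hm0]; simp
    · rw [hmS i hi, hm'S i hi]; simp
  have hm'eq : m' = (m' ⬝ᵥ V K 0) • m := sub_eq_zero.mp hprop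
  have e0 := hm' 0
  have ek := hm' k
  rw [hm0] at e0
  rw [hm'eq, smul_dotProduct] at ek
  have hL0 := Lam_ne (K := K) 0
  simp only [mul_one, smul_eq_mul] at e0 ek
  have ek' : μ k = Lam K k * (m' ⬝ᵥ V K 0) := by
    apply mul_right_cancel₀ hmk
    rw [ek]; ring
  rw [ek', e0]
  field_simp

omit [CharZero K] in
lemma V_zero (k : Fin 20) : V K k 0 = 1 := by
  simp [V, P]

lemma ann4_zero {μ : Fin 20 → K} (h : Ann 4 μ) : μ = 0 := by
  ext j
  obtain ⟨i, hij⟩ : ∃ i : Fin 20, i ≠ j := ⟨j + 1, by revert j; decide⟩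
  obtain ⟨S, hS, hiS, hjS⟩ := exists_five i j hij
  have hT : (insert j S).card = 6 := by rw [Finset.card_insert_of_notMem hjS, hS]
  obtain ⟨m, hm⟩ := interp (K := K) (insert j S) hT (fun i => if i = j then 1 else 0)
  have hmj : m ⬝ᵥ V K j = 1 := by rw [hm j (by simp)]; simp
  obtain ⟨c, hc⟩ := ann3_char (h.mul m)
  have hSne : S.Nonempty := by
    rw [← Finset.card_pos, hS]; norm_num
  obtain ⟨s, hs⟩ := hSne
  have hms : m ⬝ᵥ V K s = 0 := by
    rw [hm s (by simp [hs])]
    have : s ≠ j := fun h => hjS (h ▸ hs)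
    simp [this]
  have h1 := hc s
  rw [hms, mul_zero] at h1
  have hc0 : c = 0 := by
    rcases mul_eq_zero.mp h1.symm with h2 | h2
    · exact h2
    · exact absurd h2 (Lam_ne s)
  have h2 := hc j
  rw [hmj, hc0] at h2
  simpa using h2

lemma ann_ge4_zero {d : ℕ} (hd : 4 ≤ d) {μ : Fin 20 → K} (h : Ann d μ) : μ = 0 := by
  induction d, hd using Nat.le_induction generalizing μ with
  | base => exact ann4_zero h
  | succ d hd ih =>
    have := ih (h.mul (Pi.single 0 1))
    ext k
    have h2 := congrFun this k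
    simpa [V_zero] using h2

omit [CharZero K] in
/-- Interpolation by forms from triviality of annihilators. -/
lemma interp_forms (T : Finset (Fin 20)) (d : ℕ)
    (hyp : ∀ μ : Fin 20 → K, (∀ k, k ∉ T → μ k = 0) → Ann d μ → μ = 0) (c : T → K) :
    ∃ f : MvPolynomial (Fin 6) K, f.IsHomogeneous d ∧ ∀ k : T, eval (V K k) f = c k := by
  classical
  let E : homogeneousSubmodule (Fin 6) K d →ₗ[K] (T → K) :=
    { toFun := fun f k => eval (V K k) f.1
      map_add' := fun f g => by ext k; simp
      map_smul' := fun a f => by ext k; simp [smul_eval] }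
  have hE : LinearMap.range E = ⊤ := by
    by_contra hne
    obtain ⟨φ, hφ, hle⟩ := Submodule.exists_le_ker_of_lt_top _ (lt_top_iff_ne_top.mpr hne)
    apply hφ
    set μ : Fin 20 → K := fun k => if h : k ∈ T then φ (Pi.single ⟨k, h⟩ 1) else 0 with hμ
    have h0 : μ = 0 := by
      apply hyp μ
      · intro k hk; simp [hμ, hk]
      · intro f hf
        have h1 : φ (E ⟨f, hf⟩) = 0 := hle ⟨_, rfl⟩
        rw [LinearMap.pi_apply_eq_sum_univ φ] at h1
        rw [← h1]
        rw [← Finset.sum_subset (Finset.subset_univ T)]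
        · rw [← Finset.sum_coe_sort T]
          refine Finset.sum_congr rfl (fun k _ => ?_)
          simp only [hμ, k.2, dite_true]
          rw [smul_eq_mul, mul_comm]
          congr 2
          ext l
          simp [Pi.single_apply, eq_comm]
        · intro k _ hk
          simp [hμ, hk]
    refine LinearMap.pi_ext' (fun k => LinearMap.ext_ring ?_)
    have := congrFun h0 k
    simp only [hμ, k.2, dite_true, Pi.zero_apply] at this
    simpa using this
  have : c ∈ LinearMap.range E := by rw [hE]; trivial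
  obtain ⟨f, hf⟩ := this
  exact ⟨f.1, f.2, fun k => congrFun hf k⟩

end Pool.Agent.Lib_MP_8a2735_ag
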