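import Mathlib
import Pool.Agent.Lib_MP_8a2735_ag.Points

/-!
The seven quadrics through the twenty points cut out a zero-dimensional set: a prime ideal
containing all of them has quotient of Krull dimension at most one.
-/

namespace Pool.Agent.Lib_MP_8a2735_ag

open MvPolynomial

variable {K : Type*} [Field K]

/-- The seven quadrics. -/
noncomputable def quad (K : Type*) [Field K] : Fin 7 → MvPolynomial (Fin 6) K :=
  ![X 0 * X 2 - X 1 * X 1,
    X 0 * X 3 - X 1 * X 2,
    X 1 * X 3 - X 2 * X 2,
    X 0 * X 5 - C 2 * (X 1 * X 4) + X 2 * X 3,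
    X 1 * X 5 - C 2 * (X 2 * X 4) + X 3 * X 3,
    X 4 * X 4 - X 3 * X 5 - C 3404025 * (X 0 * X 0),
    C 41 * (X 5 * X 5) - C 25830 * (X 4 * X 4) + C 5292813 * (X 3 * X 3)
      - C 403264520 * (X 2 * X 2) + C 10384576596 * (X 1 * X 1)
      - C 46553279850 * (X 0 * X 0) + C 4496776 * (X 2 * X 4 - X 3 * X 3)
      - C 71618400 * (X 0 * X 4 - X 1 * X 3)]

lemma hom_XX (i j : Fin 6) : (X i * X j : MvPolynomial (Fin 6) K).IsHomogeneous 2 :=
  (isHomogeneous_X _ _).mul (isHomogeneous_X _ _)

lemma quad_hom (i : Fin 7) : (quad K i).IsHomogeneous 2 := by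
  have h := hom_XX (K := K)
  have hC : ∀ (c : K) {p : MvPolynomial (Fin 6) K}, p.IsHomogeneous 2 →
      (C c * p).IsHomogeneous 2 := fun c p hp => by
    simpa using (isHomogeneous_C (Fin 6) c).mul hp
  fin_cases i
  · exact (h _ _).sub (h _ _)
  · exact (h _ _).sub (h _ _)
  · exact (h _ _).sub (h _ _)
  · exact ((h _ _).sub (hC _ (h _ _))).add (h _ _)
  · exact ((h _ _).sub (hC _ (h _ _))).add (h _ _)
  · exact ((h _ _).sub (h _ _)).sub (hC _ (h _ _))
  · exact (((((((hC _ (h _ _)).sub (hC _ (h _ _))).add (hC _ (h _ _))).sub (hC _ (h _ _))).add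
      (hC _ (h _ _))).sub (hC _ (h _ _))).add (hC _ ((h _ _).sub (h _ _)))).sub
      (hC _ ((h _ _).sub (h _ _)))

/-- Integer version of the quadrics' values at the points. -/
lemma quad_int (k : Fin 20) :
    P k 0 * P k 2 - P k 1 * P k 1 = 0 ∧ P k 0 * P k 3 - P k 1 * P k 2 = 0 ∧
    P k 1 * P k 3 - P k 2 * P k 2 = 0 ∧
    P k 0 * P k 5 - 2 * (P k 1 * P k 4) + P k 2 * P k 3 = 0 ∧
    P k 1 * P k 5 - 2 * (P k 2 * P k 4) + P k 3 * P k 3 = 0 ∧
    P k 4 * P k 4 - P k 3 * P k 5 - 3404025 * (P k 0 * P k 0) = 0 ∧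
    41 * (P k 5 * P k 5) - 25830 * (P k 4 * P k 4) + 5292813 * (P k 3 * P k 3)
      - 403264520 * (P k 2 * P k 2) + 10384576596 * (P k 1 * P k 1)
      - 46553279850 * (P k 0 * P k 0) + 4496776 * (P k 2 * P k 4 - P k 3 * P k 3)
      - 71618400 * (P k 0 * P k 4 - P k 1 * P k 3) = 0 := by
  revert k; decide +kernel

lemma quad_eval (i : Fin 7) (k : Fin 20) : eval (V K k) (quad K i) = 0 := by
  obtain ⟨h1, h2, h3, h4, h5, h6, h7⟩ := quad_int k
  fin_cases i
  · simpa [quad, V] using congrArg (Int.cast : ℤ → K) h1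
  · simpa [quad, V] using congrArg (Int.cast : ℤ → K) h2
  · simpa [quad, V] using congrArg (Int.cast : ℤ → K) h3
  · simpa [quad, V] using congrArg (Int.cast : ℤ → K) h4
  · simpa [quad, V] using congrArg (Int.cast : ℤ → K) h5
  · simpa [quad, V] using congrArg (Int.cast : ℤ → K) h6
  · simpa [quad, V] using congrArg (Int.cast : ℤ → K) h7

/-- Solving the seven quadratic equations in a field of characteristic zero. -/
lemma solve {F : Type*} [Field F] [CharZero F] (t : Fin 6 → F) (h0 : t 0 = 1)
    (h1 : t 0 * t 2 - t 1 * t 1 = 0) (h2 : t 0 * t 3 - t 1 * t 2 = 0)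
    (h4 : t 0 * t 5 - 2 * (t 1 * t 4) + t 2 * t 3 = 0)
    (h6 : t 4 * t 4 - t 3 * t 5 - 3404025 * (t 0 * t 0) = 0)
    (h7 : 41 * (t 5 * t 5) - 25830 * (t 4 * t 4) + 5292813 * (t 3 * t 3)
      - 403264520 * (t 2 * t 2) + 10384576596 * (t 1 * t 1)
      - 46553279850 * (t 0 * t 0) + 4496776 * (t 2 * t 4 - t 3 * t 3)
      - 71618400 * (t 0 * t 4 - t 1 * t 3) = 0) :
    ∃ k : Fin 20, ∀ i, t i = V F k i := by
  rw [h0] at h1 h2 h4 h6 h7
  have e2 : t 2 = t 1 ^ 2 := by linear_combination h1
  have e3 : t 3 = t 1 ^ 3 := by rw [e2] at h2; linear_combination h2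
  have e5 : t 5 = 2 * t 1 * t 4 - t 1 ^ 5 := by rw [e2, e3] at h4; linear_combination h4
  rw [e3, e5] at h6
  have hf : (t 4 - (t 1 ^ 4 - 1845)) * (t 4 - (t 1 ^ 4 + 1845)) = 0 := by
    linear_combination h6
  have main : ∃ k : Fin 20, t 1 = (xs k : F) ∧ t 4 = t 1 ^ 4 - (hs k : F) := by
    rcases mul_eq_zero.mp hf with h | h
    · have e4 : t 4 = t 1 ^ 4 - 1845 := sub_eq_zero.mp h
      rw [e5, e3, e2, e4] at h7
      have hp : (t 1 - 1) * ((t 1 + 1) * ((t 1 - 3) * ((t 1 + 3) * ((t 1 - 10) * ((t 1 + 10) *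
          ((t 1 - 14) * ((t 1 + 14) * ((t 1 - 18) * (t 1 + 18))))))))) = 0 := by
        have h41 : (41 : F) ≠ 0 := by norm_num
        apply mul_left_cancel₀ h41
        linear_combination h7
      simp only [mul_eq_zero] at hp
      rcases hp with h | h | h | h | h | h | h | h | h | h
      · exact ⟨0, by simp [xs]; linear_combination h, by simpa [hs] using e4⟩
      · exact ⟨1, by simp [xs]; linear_combination h, by simpa [hs] using e4⟩
      · exact ⟨2, by simp [xs]; linear_combination h, by simpa [hs] using e4⟩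
      · exact ⟨3, by simp [xs]; linear_combination h, by simpa [hs] using e4⟩
      · exact ⟨4, by simp [xs]; linear_combination h, by simpa [hs] using e4⟩
      · exact ⟨5, by simp [xs]; linear_combination h, by simpa [hs] using e4⟩
      · exact ⟨6, by simp [xs]; linear_combination h, by simpa [hs] using e4⟩
      · exact ⟨7, by simp [xs]; linear_combination h, by simpa [hs] using e4⟩
      · exact ⟨8, by simp [xs]; linear_combination h, by simpa [hs] using e4⟩
      · exact ⟨9, by simp [xs]; linear_combination h, by simpa [hs] using e4⟩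
    · have e4 : t 4 = t 1 ^ 4 + 1845 := sub_eq_zero.mp h
      rw [e5, e3, e2, e4] at h7
      have hp : (t 1 - 6) * ((t 1 + 6) * ((t 1 - 7) * ((t 1 + 7) * ((t 1 - 8) * ((t 1 + 8) *
          ((t 1 - 15) * ((t 1 + 15) * ((t 1 - 16) * (t 1 + 16))))))))) = 0 := by
        have h41 : (41 : F) ≠ 0 := by norm_num
        apply mul_left_cancel₀ h41
        linear_combination h7
      simp only [mul_eq_zero] at hp
      rcases hp with h | h | h | h | h | h | h | h | h | h
      · exact ⟨10, by simp [xs]; linear_combination h, by simpa [hs] using e4⟩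
      · exact ⟨11, by simp [xs]; linear_combination h, by simpa [hs] using e4⟩
      · exact ⟨12, by simp [xs]; linear_combination h, by simpa [hs] using e4⟩
      · exact ⟨13, by simp [xs]; linear_combination h, by simpa [hs] using e4⟩
      · exact ⟨14, by simp [xs]; linear_combination h, by simpa [hs] using e4⟩
      · exact ⟨15, by simp [xs]; linear_combination h, by simpa [hs] using e4⟩
      · exact ⟨16, by simp [xs]; linear_combination h, by simpa [hs] using e4⟩
      · exact ⟨17, by simp [xs]; linear_combination h, by simpa [hs] using e4⟩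
      · exact ⟨18, by simp [xs]; linear_combination h, by simpa [hs] using e4⟩
      · exact ⟨19, by simp [xs]; linear_combination h, by simpa [hs] using e4⟩
  obtain ⟨k, hk, hk4⟩ := main
  refine ⟨k, fun i => ?_⟩
  have e5' : t 5 = t 1 ^ 5 - 2 * (hs k : F) * t 1 := by rw [e5, hk4]; ring
  rw [hk] at e2 e3 hk4 e5'
  fin_cases i
  · simp [V, P, h0]
  · simp [V, P, hk]
  · simp [V, P, e2]
  · simp [V, P, e3]
  · simp [V, P, hk4]
  · simp [V, P, e5']

variable [CharZero K]

/-- Auxiliary statement for an abstract domain generated by six elements. -/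
theorem dim_aux {R : Type*} [CommRing R] [IsDomain R] [Algebra K R] (a : Fin 6 → R)
    (hgen : Function.Surjective (aeval a : MvPolynomial (Fin 6) K →ₐ[K] R))
    (q0 : a 0 * a 2 - a 1 * a 1 = 0) (q1 : a 0 * a 3 - a 1 * a 2 = 0)
    (q2 : a 1 * a 3 - a 2 * a 2 = 0)
    (q3 : a 0 * a 5 - 2 * (a 1 * a 4) + a 2 * a 3 = 0)
    (q4 : a 1 * a 5 - 2 * (a 2 * a 4) + a 3 * a 3 = 0)
    (q5 : a 4 * a 4 - a 3 * a 5 - 3404025 * (a 0 * a 0) = 0)
    (q6 : 41 * (a 5 * a 5) - 25830 * (a 4 * a 4) + 5292813 * (a 3 * a 3)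
      - 403264520 * (a 2 * a 2) + 10384576596 * (a 1 * a 1)
      - 46553279850 * (a 0 * a 0) + 4496776 * (a 2 * a 4 - a 3 * a 3)
      - 71618400 * (a 0 * a 4 - a 1 * a 3) = 0) : ringKrullDim R ≤ 1 := by
  have hcz : CharZero R := charZero_of_injective_algebraMap (algebraMap K R).injective
  by_cases hx0 : a 0 = 0
  · -- all coordinates vanish
    have z1 : a 1 = 0 := by
      rw [hx0] at q0
      exact mul_self_eq_zero.mp (by linear_combination -q0)
    have z2 : a 2 = 0 := by
      rw [z1] at q2
      exact mul_self_eq_zero.mp (by linear_combination -q2)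
    have z3 : a 3 = 0 := by
      rw [z1, z2] at q4
      exact mul_self_eq_zero.mp (by linear_combination q4)
    have z4 : a 4 = 0 := by
      rw [z3, hx0] at q5
      exact mul_self_eq_zero.mp (by linear_combination q5)
    have z5 : a 5 = 0 := by
      rw [z1, z2, z3, z4, hx0] at q6
      have h41 : (41 : R) ≠ 0 := by norm_num
      have : (41 : R) * (a 5 * a 5) = 0 := by linear_combination q6
      exact mul_self_eq_zero.mp ((mul_eq_zero.mp this).resolve_left h41)
    have hsurj : Function.Surjective (algebraMap K R) := by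
      intro y
      obtain ⟨f, rfl⟩ := hgen y
      refine ⟨constantCoeff f, ?_⟩
      have ha0 : a = 0 := by
        ext i
        fin_cases i
        · exact hx0
        · exact z1
        · exact z2
        · exact z3
        · exact z4
        · exact z5
      rw [ha0, MvPolynomial.aeval_zero]
    calc ringKrullDim R ≤ ringKrullDim K := ringKrullDim_le_of_surjective _ hsurj
      _ = 0 := ringKrullDim_eq_zero_of_field K
      _ ≤ 1 := by norm_num
  · have hinj : Function.Injective (algebraMap R (FractionRing R)) :=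
      IsFractionRing.injective R (FractionRing R)
    have hczF : CharZero (FractionRing R) := charZero_of_injective_algebraMap hinj
    have hb0 : algebraMap R (FractionRing R) (a 0) ≠ 0 :=
      fun h0 => hx0 (hinj (by rw [map_zero]; exact h0))
    have lift : ∀ {x : R}, x = 0 → algebraMap R (FractionRing R) x = 0 :=
      fun h => by rw [h, map_zero]
    have p0 := lift q0
    have p1 := lift q1
    have p3 := lift q3
    have p5 := lift q5
    have p6 := lift q6
    simp only [map_add, map_sub, map_mul, map_ofNat] at p0 p1 p3 p5 p6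
    obtain ⟨k, hk⟩ := solve
      (fun i => algebraMap R (FractionRing R) (a i) / algebraMap R (FractionRing R) (a 0))
      (div_self hb0)
      (by field_simp; linear_combination p0)
      (by field_simp; linear_combination p1)
      (by field_simp; linear_combination p3)
      (by field_simp; linear_combination p5)
      (by field_simp; linear_combination p6)
    have hak : ∀ i, a i = algebraMap K R (V K k i) * a 0 := by
      intro i
      apply hinj
      have h1 := hk i
      rw [div_eq_iff hb0] at h1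
      rw [map_mul, h1]
      congr 1
      simp [V]
    have hsurj : Function.Surjective (Polynomial.aeval (a 0) : Polynomial K →ₐ[K] R) := by
      intro y
      obtain ⟨f, rfl⟩ := hgen y
      refine ⟨aeval (fun i => Polynomial.C (V K k i) * Polynomial.X) f, ?_⟩
      have : (Polynomial.aeval (a 0)).comp
          (aeval (fun i => Polynomial.C (V K k i) * Polynomial.X) :
            MvPolynomial (Fin 6) K →ₐ[K] Polynomial K) = aeval a := by
        apply MvPolynomial.algHom_ext
        intro i
        rw [AlgHom.comp_apply, aeval_X, map_mul, Polynomial.aeval_C, Polynomial.aeval_X, aeval_X]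
        exact (hak i).symm
      exact DFunLike.congr_fun this f
    calc ringKrullDim R ≤ ringKrullDim (Polynomial K) :=
          ringKrullDim_le_of_surjective
            (Polynomial.aeval (a 0) : Polynomial K →ₐ[K] R).toRingHom hsurj
      _ = ringKrullDim K + 1 := Polynomial.ringKrullDim_of_isNoetherianRing
      _ = 1 := by rw [ringKrullDim_eq_zero_of_field K]; norm_num

/-- A prime ideal containing the seven quadrics has quotient of Krull dimension at most one. -/
theorem dim_le_one (Q : Ideal (MvPolynomial (Fin 6) K)) [hQ : Q.IsPrime]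
    (h : ∀ i, quad K i ∈ Q) : ringKrullDim (MvPolynomial (Fin 6) K ⧸ Q) ≤ 1 := by
  have hq : ∀ i, Ideal.Quotient.mk Q (quad K i) = 0 := fun i =>
    Ideal.Quotient.eq_zero_iff_mem.mpr (h i)
  have hC : ∀ (n : ℕ) [n.AtLeastTwo], Ideal.Quotient.mk Q (C (OfNat.ofNat n : K)) =
      OfNat.ofNat n := by
    intro n _
    rw [map_ofNat C, map_ofNat]
  have q0 := hq 0
  have q1 := hq 1
  have q2 := hq 2
  have q3 := hq 3
  have q4 := hq 4
  have q5 := hq 5
  have q6 := hq 6
  simp only [quad, Matrix.cons_val_zero, Matrix.cons_val_one, Matrix.cons_val, map_add, map_sub,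
    map_mul, hC] at q0 q1 q2 q3 q4 q5 q6
  refine dim_aux (K := K) (fun i => Ideal.Quotient.mk Q (X i)) ?_ q0 q1 q2 q3 q4 q5 q6
  intro y
  obtain ⟨f, rfl⟩ := Ideal.Quotient.mk_surjective y
  refine ⟨f, ?_⟩
  have : (aeval (fun i => Ideal.Quotient.mk Q (X i)) :
      MvPolynomial (Fin 6) K →ₐ[K] MvPolynomial (Fin 6) K ⧸ Q) = Ideal.Quotient.mkₐ K Q := by
    apply MvPolynomial.algHom_ext
    intro i
    simp
  exact DFunLike.congr_fun this f

end Pool.Agent.Lib_MP_8a2735_ag
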