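import Mathlib
import Pool.Agent.Lib_MP_8a2735_ag.Ann
import Pool.Agent.Lib_MP_8a2735_ag.Dim

/-!
Every curve through the twenty points has degree at least ten.
-/

namespace Pool.Agent.Lib_MP_8a2735_ag

open MvPolynomial

variable {K : Type*} [Field K]

/-- Forms of degree `m`. -/
abbrev Hm (K : Type*) [Field K] (m : ℕ) : Submodule K (MvPolynomial (Fin 6) K) :=
  homogeneousSubmodule (Fin 6) K m

instance finHm (m : ℕ) : Module.Finite K (Hm K m) :=
  Module.Finite.iff_fg.mpr (homogeneousSubmodule_fg _ _ _)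

/-- Forms of degree `m` in the ideal `I`. -/
noncomputable abbrev part (I : Ideal (MvPolynomial (Fin 6) K)) (m : ℕ) : Submodule K (Hm K m) :=
  (I.restrictScalars K).comap (Hm K m).subtype

/-- The degree `m` part of the quotient. -/
def Bq (I : Ideal (MvPolynomial (Fin 6) K)) (m : ℕ) : Type _ := Hm K m ⧸ part I m

noncomputable instance (I : Ideal (MvPolynomial (Fin 6) K)) (m : ℕ) : AddCommGroup (Bq I m) :=
  inferInstanceAs (AddCommGroup (Hm K m ⧸ part I m))

noncomputable instance (I : Ideal (MvPolynomial (Fin 6) K)) (m : ℕ) : Module K (Bq I m) :=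
  inferInstanceAs (Module K (Hm K m ⧸ part I m))

instance (I : Ideal (MvPolynomial (Fin 6) K)) (m : ℕ) : Module.Finite K (Bq I m) :=
  inferInstanceAs (Module.Finite K (Hm K m ⧸ part I m))

/-- The quotient map. -/
noncomputable def qmk (I : Ideal (MvPolynomial (Fin 6) K)) (m : ℕ) : Hm K m →ₗ[K] Bq I m :=
  (part I m).mkQ

lemma qmk_surj (I : Ideal (MvPolynomial (Fin 6) K)) (m : ℕ) : Function.Surjective (qmk I m) :=
  Submodule.mkQ_surjective _

lemma qmk_eq_zero (I : Ideal (MvPolynomial (Fin 6) K)) (m : ℕ) (f : Hm K m) :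
    qmk I m f = 0 ↔ f.1 ∈ I :=
  Submodule.Quotient.mk_eq_zero (part I m)

/-- Dimension of the degree `m` part of the quotient. -/
noncomputable def cd (I : Ideal (MvPolynomial (Fin 6) K)) (m : ℕ) : ℕ :=
  Module.finrank K (Bq I m)

/-- Multiplication by a form. -/
noncomputable def mulForm {d : ℕ} (g : MvPolynomial (Fin 6) K) (hg : g.IsHomogeneous d) (m : ℕ) :
    Hm K m →ₗ[K] Hm K (m + d) where
  toFun f := ⟨g * f.1, by rw [add_comm]; exact hg.mul f.2⟩
  map_add' f h := by ext1; simp [mul_add]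
  map_smul' c f := by ext1; simp

/-- Multiplication by a form on the quotient. -/
noncomputable def mulQ {d : ℕ} (g : MvPolynomial (Fin 6) K) (hg : g.IsHomogeneous d) (m : ℕ)
    (Q : Ideal (MvPolynomial (Fin 6) K)) : Bq Q m →ₗ[K] Bq Q (m + d) :=
  Submodule.mapQ (part Q m) (part Q (m + d)) (mulForm g hg m) (by
    intro f hf
    exact Q.mul_mem_left _ hf)

lemma mulQ_qmk {d : ℕ} (g : MvPolynomial (Fin 6) K) (hg : g.IsHomogeneous d) (m : ℕ)
    (Q : Ideal (MvPolynomial (Fin 6) K)) (f : Hm K m) :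
    mulQ g hg m Q (qmk Q m f) = qmk Q (m + d) (mulForm g hg m f) := rfl

lemma mulQ_injective {d : ℕ} (g : MvPolynomial (Fin 6) K) (hg : g.IsHomogeneous d) (m : ℕ)
    (Q : Ideal (MvPolynomial (Fin 6) K)) [hQ : Q.IsPrime] (hgQ : g ∉ Q) :
    Function.Injective (mulQ g hg m Q) := by
  rw [injective_iff_map_eq_zero]
  intro x hx
  obtain ⟨f, rfl⟩ := qmk_surj Q m x
  rw [mulQ_qmk, qmk_eq_zero] at hx
  rw [qmk_eq_zero]
  exact (hQ.mem_or_mem (show g * f.1 ∈ Q from hx)).resolve_left hgQ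

variable [CharZero K]

lemma growth (Q : Ideal (MvPolynomial (Fin 6) K)) [hQ : Q.IsPrime] (q : MvPolynomial (Fin 6) K)
    (hq : q.IsHomogeneous 2) (hqQ : q ∉ Q) (T : Finset (Fin 20))
    (hT : ∀ k ∈ T, ∀ f ∈ Q, eval (V K k) f = 0) (hqT : ∀ k ∈ T, eval (V K k) q = 0)
    (m : ℕ) (hm : 2 ≤ m) : cd Q m + T.card ≤ cd Q (m + 2) := by
  let E : Hm K (m + 2) →ₗ[K] (T → K) :=
    { toFun := fun f k => eval (V K k) f.1
      map_add' := fun f g => by ext k; simp
      map_smul' := fun a f => by ext k; simp [smul_eval] }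
  have hE : part Q (m + 2) ≤ LinearMap.ker E := by
    intro f hf
    rw [LinearMap.mem_ker]
    ext k
    exact hT k k.2 f.1 hf
  let ev : Bq Q (m + 2) →ₗ[K] (T → K) := Submodule.liftQ (part Q (m + 2)) E hE
  have hsurj : LinearMap.range ev = ⊤ := by
    rw [LinearMap.range_eq_top]
    intro c
    obtain ⟨f, hf, hfc⟩ := interp_forms (K := K) T (m + 2)
      (fun μ _ h => ann_ge4_zero (by omega) h) c
    refine ⟨qmk Q (m + 2) ⟨f, hf⟩, ?_⟩
    ext k
    exact hfc k
  have hle : LinearMap.range (mulQ q hq m Q) ≤ LinearMap.ker ev := by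
    rintro _ ⟨x, rfl⟩
    obtain ⟨f, rfl⟩ := qmk_surj Q m x
    rw [LinearMap.mem_ker]
    ext k
    show eval (V K k) (q * f.1) = 0
    rw [map_mul, hqT k k.2, zero_mul]
  have h1 := LinearMap.finrank_range_add_finrank_ker ev
  rw [hsurj, finrank_top, Module.finrank_fintype_fun_eq_card, Fintype.card_coe] at h1
  have h2 := Submodule.finrank_mono hle
  rw [LinearMap.finrank_range_of_inj (mulQ_injective q hq m Q hqQ)] at h2
  unfold cd
  omega

omit [CharZero K] in
lemma combine {ι : Type*} [Fintype ι] [DecidableEq ι]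
    (I : Ideal (MvPolynomial (Fin 6) K)) (Q : ι → Ideal (MvPolynomial (Fin 6) K))
    (hQ : ∀ i, (Q i).IsPrime) (hI : ∀ i, I ≤ Q i) (δ : ℕ) (g : ι → MvPolynomial (Fin 6) K)
    (hg : ∀ i, (g i).IsHomogeneous δ) (hgi : ∀ i, g i ∉ Q i) (hgj : ∀ i j, j ≠ i → g i ∈ Q j)
    (m : ℕ) : ∑ i, cd (Q i) m ≤ cd I (m + δ) := by
  let ψ : (∀ i, Bq (Q i) m) →ₗ[K] (∀ i, Bq (Q i) (m + δ)) :=
    LinearMap.pi (fun i => (mulQ (g i) (hg i) m (Q i)).comp (LinearMap.proj i))
  have hψ : Function.Injective ψ := by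
    intro x y hxy
    ext i
    have := congrFun hxy i
    exact mulQ_injective (hQ := hQ i) (g i) (hg i) m (Q i) (hgi i) this
  let Θ : Hm K (m + δ) →ₗ[K] (∀ i, Bq (Q i) (m + δ)) :=
    LinearMap.pi (fun i => qmk (Q i) (m + δ))
  have hΘ : part I (m + δ) ≤ LinearMap.ker Θ := by
    intro f hf
    rw [LinearMap.mem_ker]
    funext i
    show qmk (Q i) (m + δ) f = 0
    rw [qmk_eq_zero]
    exact hI i hf
  have hle : LinearMap.range ψ ≤ LinearMap.range Θ := by
    rintro _ ⟨x, rfl⟩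
    choose f hf using fun i => qmk_surj (Q i) m (x i)
    refine ⟨∑ j, mulForm (g j) (hg j) m (f j), ?_⟩
    funext i
    have e1 : ψ x i = qmk (Q i) (m + δ) (mulForm (g i) (hg i) m (f i)) := by
      show mulQ (g i) (hg i) m (Q i) (x i) = _
      rw [← hf i]
      rfl
    rw [e1]
    show qmk (Q i) (m + δ) (∑ j, mulForm (g j) (hg j) m (f j)) = _
    rw [← sub_eq_zero, ← map_sub, ← Finset.sum_erase_eq_sub (Finset.mem_univ i), qmk_eq_zero,
      AddSubmonoidClass.coe_finsetSum]
    refine Ideal.sum_mem _ ?_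
    intro j hj
    have hji : j ≠ i := (Finset.mem_erase.mp hj).1
    exact (Q i).mul_mem_right _ (hgj j i hji.symm)
  have h1 := Submodule.finrank_mono hle
  rw [LinearMap.finrank_range_of_inj hψ, Module.finrank_pi_fintype] at h1
  have h2 := LinearMap.finrank_range_add_finrank_ker Θ
  have h3 := Submodule.finrank_quotient_add_finrank (part I (m + δ))
  have h4 := Submodule.finrank_mono hΘ
  change Module.finrank K (Bq I (m + δ)) + _ = _ at h3
  unfold cd
  omega

omit [CharZero K] in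
/-- Minimal primes of a homogeneous ideal are homogeneous. -/
lemma minimalPrimes_hom (I : Ideal (MvPolynomial (Fin 6) K))
    (hI : ∀ f ∈ I, ∀ n, homogeneousComponent n f ∈ I) (Q : Ideal (MvPolynomial (Fin 6) K))
    (hQ : Q ∈ I.minimalPrimes) : ∀ f ∈ Q, ∀ n, homogeneousComponent n f ∈ Q := by
  let _ := MvPolynomial.gradedAlgebra (σ := Fin 6) (R := K)
  have hI' : I.IsHomogeneous (homogeneousSubmodule (Fin 6) K) := by
    intro n f hf
    have := hI f hf n
    rwa [← MvPolynomial.decomposition.decompose'_apply] at this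
  have hprime := hQ.1.1
  have hcore := Ideal.IsPrime.homogeneousCore (𝒜 := homogeneousSubmodule (Fin 6) K) hprime
  have hle : I ≤ (Q.homogeneousCore (homogeneousSubmodule (Fin 6) K)).toIdeal := by
    have h1 := Ideal.homogeneousCore_mono (homogeneousSubmodule (Fin 6) K) hQ.1.2
    have h2 := hI'.toIdeal_homogeneousCore_eq_self
    intro f hf
    rw [← h2] at hf
    exact h1 hf
  have heq := hQ.2 ⟨hcore, hle⟩ (Ideal.toIdeal_homogeneousCore_le _ _)
  intro f hf n
  have hf' := heq hf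
  have := homogeneousComponent_mem_of_mem
    (Q.homogeneousCore (homogeneousSubmodule (Fin 6) K)).isHomogeneous hf' n
  exact Ideal.toIdeal_homogeneousCore_le _ _ this

omit [CharZero K] in
/-- Homogeneous elements separating distinct minimal primes. -/
lemma exists_hom_sep (Q Q' : Ideal (MvPolynomial (Fin 6) K)) (hQ : ¬ Q ≤ Q')
    (hh : ∀ f ∈ Q, ∀ n, homogeneousComponent n f ∈ Q) :
    ∃ (d : ℕ) (g : MvPolynomial (Fin 6) K), g.IsHomogeneous d ∧ g ∈ Q ∧ g ∉ Q' := by
  obtain ⟨f, hf, hf'⟩ := Set.not_subset.mp hQ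
  by_contra hcon
  push Not at hcon
  apply hf'
  rw [← sum_homogeneousComponent f]
  refine Submodule.sum_mem _ ?_
  intro n _
  exact hcon n _ (homogeneousComponent_isHomogeneous n f) (hh f hf n)

omit [CharZero K] in
/-- A prime whose quotient is two-dimensional does not contain all variables. -/
lemma exists_X_notMem (Q : Ideal (MvPolynomial (Fin 6) K)) [Q.IsPrime]
    (hd : ringKrullDim (MvPolynomial (Fin 6) K ⧸ Q) = 2) : ∃ i, (X i : MvPolynomial (Fin 6) K) ∉ Q := by
  by_contra hcon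
  push Not at hcon
  have hsurj : Function.Surjective (algebraMap K (MvPolynomial (Fin 6) K ⧸ Q)) := by
    intro y
    obtain ⟨f, rfl⟩ := Ideal.Quotient.mk_surjective y
    refine ⟨constantCoeff f, ?_⟩
    have h1 : Ideal.Quotient.mkₐ K Q = aeval (0 : Fin 6 → (MvPolynomial (Fin 6) K ⧸ Q)) := by
      apply MvPolynomial.algHom_ext
      intro i
      rw [aeval_X, Pi.zero_apply]
      exact Ideal.Quotient.eq_zero_iff_mem.mpr (hcon i)
    have h2 := DFunLike.congr_fun h1 f
    rw [MvPolynomial.aeval_zero] at h2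
    exact h2.symm
  have := ringKrullDim_le_of_surjective _ hsurj
  rw [hd, ringKrullDim_eq_zero_of_field K] at this
  exact absurd this (by decide)

omit [CharZero K] in
/-- Separating forms of a common degree for the minimal primes. -/
lemma exists_sep (I : Ideal (MvPolynomial (Fin 6) K))
    (hI : ∀ f ∈ I, ∀ n, homogeneousComponent n f ∈ I)
    (hd : ∀ Q ∈ I.minimalPrimes, ringKrullDim (MvPolynomial (Fin 6) K ⧸ Q) = 2)
    [Fintype I.minimalPrimes] [DecidableEq I.minimalPrimes] :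
    ∃ (δ : ℕ) (g : I.minimalPrimes → MvPolynomial (Fin 6) K), (∀ i, (g i).IsHomogeneous δ) ∧
      (∀ i, g i ∉ i.1) ∧ (∀ i j : I.minimalPrimes, j ≠ i → g i ∈ j.1) := by
  have hprime : ∀ i : I.minimalPrimes, i.1.IsPrime := fun i => i.2.1.1
  have h1 : ∀ i j : I.minimalPrimes, j ≠ i → ∃ (d : ℕ) (g : MvPolynomial (Fin 6) K),
      g.IsHomogeneous d ∧ g ∈ j.1 ∧ g ∉ i.1 := by
    intro i j hji
    refine exists_hom_sep j.1 i.1 ?_ (minimalPrimes_hom I hI j.1 j.2)
    intro hle
    exact hji (Subtype.ext (le_antisymm hle (i.2.2 j.2.1 hle)))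
  choose! d g hg hgj hgi using h1
  have h2 : ∀ i : I.minimalPrimes, ∃ l : Fin 6, (X l : MvPolynomial (Fin 6) K) ∉ i.1 := by
    intro i
    have := hprime i
    exact exists_X_notMem i.1 (hd i.1 i.2)
  choose l hl using h2
  set D : I.minimalPrimes → ℕ := fun i => ∑ j ∈ Finset.univ.erase i, d i j with hD
  set G : I.minimalPrimes → MvPolynomial (Fin 6) K := fun i => ∏ j ∈ Finset.univ.erase i, g i j
    with hG
  have hGhom : ∀ i, (G i).IsHomogeneous (D i) := by
    intro i
    exact IsHomogeneous.prod _ _ _ (fun j hj => hg i j (Finset.mem_erase.mp hj).1)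
  set δ := ∑ i, D i with hδ
  have hDδ : ∀ i, D i ≤ δ := fun i =>
    Finset.single_le_sum (f := D) (fun _ _ => Nat.zero_le _) (Finset.mem_univ i)
  refine ⟨δ, fun i => G i * X (l i) ^ (δ - D i), ?_, ?_, ?_⟩
  · intro i
    have := (hGhom i).mul (isHomogeneous_X_pow (R := K) (l i) (δ - D i))
    rwa [Nat.add_sub_cancel' (hDδ i)] at this
  · intro i hmem
    have hp := hprime i
    rcases hp.mem_or_mem hmem with h | h
    · rw [hG] at h
      simp only at h
      rw [hp.prod_mem_iff] at h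
      obtain ⟨j, hj, hjm⟩ := h
      exact hgi i j (Finset.mem_erase.mp hj).1 hjm
    · exact hl i (hp.mem_of_pow_mem _ h)
  · intro i j hji
    refine Ideal.mul_mem_right _ _ ?_
    have : g i j ∈ j.1 := hgj i j hji
    have hdvd : g i j ∣ G i := Finset.dvd_prod_of_mem _ (Finset.mem_erase.mpr ⟨hji, Finset.mem_univ _⟩)
    exact Ideal.mem_of_dvd _ hdvd this

/-- **Main inequality**: a purely one-dimensional homogeneous ideal vanishing at the twenty points
with Hilbert polynomial `e m + b` has `e ≥ 10`. -/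
theorem ten_le (I : Ideal (MvPolynomial (Fin 6) K)) (e : ℕ)
    (hI : ∀ f ∈ I, ∀ n, homogeneousComponent n f ∈ I)
    (hd : ∀ Q ∈ I.minimalPrimes, ringKrullDim (MvPolynomial (Fin 6) K ⧸ Q) = 2)
    (hH : ∃ b : ℤ, ∀ᶠ m : ℕ in Filter.atTop, (cd I m : ℤ) = e * m + b)
    (hV : ∀ k, ∀ f ∈ I, eval (V K k) f = 0) : 10 ≤ e := by
  classical
  have hfin : Finite I.minimalPrimes := (I.finite_minimalPrimes_of_isNoetherianRing)
  let _ : Fintype I.minimalPrimes := Fintype.ofFinite _
  obtain ⟨δ, g, hg, hgi, hgj⟩ := exists_sep I hI hd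
  have hprime : ∀ i : I.minimalPrimes, i.1.IsPrime := fun i => i.2.1.1
  -- a quadric through the points not in the prime
  have hq : ∀ i : I.minimalPrimes, ∃ a : Fin 7, quad K a ∉ i.1 := by
    intro i
    have := hprime i
    by_contra hcon
    push Not at hcon
    have h1 := dim_le_one i.1 hcon
    rw [hd i.1 i.2] at h1
    exact absurd h1 (by decide)
  choose a ha using hq
  set T : I.minimalPrimes → Finset (Fin 20) := fun i =>
    Finset.univ.filter (fun k => ∀ f ∈ i.1, eval (V K k) f = 0) with hT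
  have hcover : ∀ k : Fin 20, ∃ i, k ∈ T i := by
    intro k
    have hle : I ≤ RingHom.ker (eval (V K k)) := fun f hf => hV k f hf
    have hker : (RingHom.ker (eval (V K k))).IsPrime := RingHom.ker_isPrime _
    obtain ⟨Q, hQ, hQle⟩ := Ideal.exists_minimalPrimes_le hle
    refine ⟨⟨Q, hQ⟩, ?_⟩
    simp only [hT, Finset.mem_filter, Finset.mem_univ, true_and]
    exact fun f hf => hQle hf
  have hcard : 20 ≤ ∑ i, (T i).card := by
    have h1 : (Finset.univ : Finset (Fin 20)) ⊆ Finset.univ.biUnion T := by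
      intro k _
      obtain ⟨i, hi⟩ := hcover k
      exact Finset.mem_biUnion.mpr ⟨i, Finset.mem_univ _, hi⟩
    calc 20 = (Finset.univ : Finset (Fin 20)).card := by simp
      _ ≤ (Finset.univ.biUnion T).card := Finset.card_le_card h1
      _ ≤ ∑ i, (T i).card := Finset.card_biUnion_le
  have hgrow : ∀ (i : I.minimalPrimes) (k : ℕ), k * (T i).card ≤ cd i.1 (2 + 2 * k) := by
    intro i k
    induction k with
    | zero => simp
    | succ k ih =>
      have := hprime i
      have h1 := growth i.1 (quad K (a i)) (quad_hom _) (ha i) (T i)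
        (fun k hk => by simpa [hT] using hk) (fun k _ => quad_eval _ _) (2 + 2 * k) (by omega)
      calc (k + 1) * (T i).card = k * (T i).card + (T i).card := by ring
        _ ≤ cd i.1 (2 + 2 * k) + (T i).card := by omega
        _ ≤ cd i.1 (2 + 2 * k + 2) := h1
        _ = cd i.1 (2 + 2 * (k + 1)) := by ring_nf
  have hmain : ∀ k : ℕ, 20 * k ≤ cd I (2 + 2 * k + δ) := by
    intro k
    calc 20 * k ≤ (∑ i, (T i).card) * k := Nat.mul_le_mul_right _ hcard
      _ = ∑ i, k * (T i).card := by rw [Finset.sum_mul]; exact Finset.sum_congr rfl (fun _ _ => mul_comm _ _)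
      _ ≤ ∑ i : I.minimalPrimes, cd i.1 (2 + 2 * k) := Finset.sum_le_sum (fun i _ => hgrow i k)
      _ ≤ cd I (2 + 2 * k + δ) :=
        combine I (fun i : I.minimalPrimes => i.1) hprime (fun i => i.2.1.2) δ g hg hgi hgj _
  obtain ⟨b, hb⟩ := hH
  obtain ⟨N, hN⟩ := Filter.eventually_atTop.mp hb
  by_contra hlt
  push Not at hlt
  -- choose k large
  obtain ⟨k, hk1, hk2⟩ : ∃ k : ℕ, N ≤ 2 + 2 * k + δ ∧ 9 * (2 + (δ : ℤ)) + b < 2 * k := by
    refine ⟨N + (9 * (2 + (δ : ℤ)) + b).toNat + 1, by omega, ?_⟩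
    push_cast
    have := Int.self_le_toNat (9 * (2 + (δ : ℤ)) + b)
    omega
  have h1 := hN _ hk1
  have h2 := hmain k
  have h3 : (20 * (k : ℤ)) ≤ e * ((2 + 2 * k + δ : ℕ) : ℤ) + b := by
    rw [← h1]; exact_mod_cast h2
  have h4 : (e : ℤ) * ((2 + 2 * k + δ : ℕ) : ℤ) ≤ 9 * ((2 + 2 * k + δ : ℕ) : ℤ) := by
    apply mul_le_mul_of_nonneg_right _ (by positivity)
    have : e ≤ 9 := by omega
    exact_mod_cast this
  push_cast at h3 h4
  linarith

end Pool.Agent.Lib_MP_8a2735_ag
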