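import Mathlib

/-!
Hilbert functions of finite point sets, uniform position, and curves in projective space.
-/

open MvPolynomial

namespace Pool.Agent.Results.MP_8a2735_ag

variable {K : Type*} [Field K] {r : ℕ}

/-- The evaluation map `f ↦ (f(p))_p` from forms of degree `d` in `r + 1` variables to functions
on the finite set `Γ` of points of projective `r`-space (each point is represented by its chosen
nonzero vector `p.rep`). -/
noncomputable def evalForms (Γ : Finset (Projectivization K (Fin (r + 1) → K))) (d : ℕ) :
    homogeneousSubmodule (Fin (r + 1)) K d →ₗ[K] (Γ → K) where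
  toFun f p := eval p.1.rep f.1
  map_add' f g := by ext p; simp
  map_smul' a f := by ext p; simp [smul_eval]

/-- The Hilbert function `h_Γ(d)`: the rank of the evaluation map on forms of degree `d`. -/
noncomputable def hilbertFn (Γ : Finset (Projectivization K (Fin (r + 1) → K))) (d : ℕ) : ℕ :=
  Module.finrank K (LinearMap.range (evalForms Γ d))

/-- `Γ` is in uniform position: subsets of equal cardinality have equal Hilbert functions. -/
def UniformPosition (Γ : Finset (Projectivization K (Fin (r + 1) → K))) : Prop :=
  ∀ Γ₁ ⊆ Γ, ∀ Γ₂ ⊆ Γ, Γ₁.card = Γ₂.card → ∀ d, hilbertFn Γ₁ d = hilbertFn Γ₂ d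

/-- `Γ` is in linear general position: every subset of at most `r + 1` points is linearly
independent. -/
def LinearGeneralPosition (Γ : Finset (Projectivization K (Fin (r + 1) → K))) : Prop :=
  ∀ Γ₁ ⊆ Γ, Γ₁.card ≤ r + 1 → LinearIndependent K (fun p : Γ₁ => p.1.rep)

/-- The dimension of the degree `m` part of the homogeneous coordinate ring
`K[x_0, ..., x_r] / I`: forms of degree `m` modulo those lying in `I`. -/
noncomputable def coordDim (I : Ideal (MvPolynomial (Fin (r + 1)) K)) (m : ℕ) : ℕ :=
  Module.finrank K (homogeneousSubmodule (Fin (r + 1)) K m ⧸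
    (I.restrictScalars K).comap (homogeneousSubmodule (Fin (r + 1)) K m).subtype)

/-- The homogeneous ideal `I` of `K[x_0, ..., x_r]` defines a curve of degree `e` in projective
`r`-space: every minimal prime over `I` has a two-dimensional quotient (every irreducible
component of the closed subscheme `V(I)` has dimension one), and the Hilbert polynomial of
`K[x_0, ..., x_r] / I` is `e * m + b`. -/
structure IsCurveOfDegree (I : Ideal (MvPolynomial (Fin (r + 1)) K)) (e : ℕ) : Prop where
  homogeneous : ∀ f ∈ I, ∀ n, homogeneousComponent n f ∈ I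
  pure_dim_one : ∀ P ∈ I.minimalPrimes, ringKrullDim (MvPolynomial (Fin (r + 1)) K ⧸ P) = 2
  hilbert_polynomial : ∃ b : ℤ, ∀ᶠ m : ℕ in Filter.atTop, (coordDim I m : ℤ) = e * m + b

/-- The points of `Γ` lie on the closed subscheme defined by the homogeneous ideal `I`. -/
def LiesOn (Γ : Finset (Projectivization K (Fin (r + 1) → K)))
    (I : Ideal (MvPolynomial (Fin (r + 1)) K)) : Prop :=
  ∀ p ∈ Γ, ∀ f ∈ I, eval p.rep f = 0

end Pool.Agent.Results.MP_8a2735_ag
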