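import Mathlib
import Pool.Agent.Lib_MP_8a2735_ag.Ann

/-!
The ranks of the evaluation maps on all subsets of the twenty points.
-/

namespace Pool.Agent.Lib_MP_8a2735_ag

open MvPolynomial

variable {K : Type*} [Field K]

/-- Evaluation of forms of degree `d` at the points of `T`. -/
noncomputable def E (K : Type*) [Field K] (T : Finset (Fin 20)) (d : ℕ) :
    homogeneousSubmodule (Fin 6) K d →ₗ[K] (T → K) where
  toFun f k := eval (V K k) f.1
  map_add' f g := by ext k; simp
  map_smul' a f := by ext k; simp [smul_eval]

/-- The rank of the evaluation map. -/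
noncomputable def rk (K : Type*) [Field K] (T : Finset (Fin 20)) (d : ℕ) : ℕ :=
  Module.finrank K (LinearMap.range (E K T d))

/-- The Hilbert function of the twenty points. -/
def N : ℕ → ℕ
  | 0 => 1
  | 1 => 6
  | 2 => 14
  | 3 => 19
  | _ => 20

/-- A space of functions on `T` determined by the values on `S` has dimension at most `|S|`. -/
lemma finrank_le_of_det {α : Type*} [Fintype α] (W : Submodule K (α → K)) (S : Finset α)
    (h : ∀ c ∈ W, (∀ k ∈ S, c k = 0) → c = 0) : Module.finrank K W ≤ S.card := by
  let res : W →ₗ[K] (S → K) :=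
    { toFun := fun c k => c.1 k
      map_add' := fun c c' => by ext k; simp
      map_smul' := fun a c => by ext k; simp }
  have hinj : Function.Injective res := by
    rw [injective_iff_map_eq_zero]
    intro c hc
    ext1
    exact h c.1 c.2 (fun k hk => congrFun hc ⟨k, hk⟩)
  have := LinearMap.finrank_le_finrank_of_injective hinj
  simpa using this

lemma rk_mono {T T' : Finset (Fin 20)} (h : T ⊆ T') (d : ℕ) : rk K T d ≤ rk K T' d := by
  let res : (T' → K) →ₗ[K] (T → K) :=
    { toFun := fun c k => c ⟨k.1, h k.2⟩
      map_add' := fun c c' => by ext k; simp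
      map_smul' := fun a c => by ext k; simp }
  have hE : E K T d = res.comp (E K T' d) := by
    ext f k
    rfl
  unfold rk
  rw [hE, LinearMap.range_comp]
  exact Submodule.finrank_map_le _ _

lemma rk_le_card (T : Finset (Fin 20)) (d : ℕ) : rk K T d ≤ T.card := by
  have := Submodule.finrank_le (LinearMap.range (E K T d))
  simpa [rk] using this

variable [CharZero K]

lemma surj_small (T : Finset (Fin 20)) (d : ℕ) (hT : T.card ≤ N d) : rk K T d = T.card := by
  have key : ∀ μ : Fin 20 → K, (∀ k, k ∉ T → μ k = 0) → Ann d μ → μ = 0 := by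
    intro μ hμ hA
    rcases d with _ | _ | _ | _ | d
    · -- degree 0
      have hT1 : T.card ≤ 1 := hT
      have h1 := hA 1 (isHomogeneous_one _ _)
      simp only [map_one, mul_one] at h1
      ext k
      by_cases hk : k ∈ T
      · rw [Finset.sum_eq_single k] at h1
        · exact h1
        · intro b _ hb
          apply hμ
          intro hbT
          exact hb (Finset.card_le_one.mp hT1 b hbT k hk)
        · intro h; exact absurd (Finset.mem_univ k) h
      · exact hμ k hk
    · -- degree 1
      have hT1 : T.card ≤ 6 := hT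
      obtain ⟨T', hTT', hc⟩ := Finset.exists_superset_card_eq hT1 (by simp)
      refine indepK' T' hc μ (fun k hk => hμ k (fun hk' => hk (hTT' hk'))) ?_
      intro j
      have := hA (X j) (isHomogeneous_X _ _)
      simpa using this
    · -- degree 2
      have hT1 : T.card ≤ 14 := hT
      obtain ⟨m, hm⟩ := ann2_char hA
      have hc : 6 ≤ Tᶜ.card := by
        rw [Finset.card_compl, Fintype.card_fin]; omega
      obtain ⟨S, hS, hSc⟩ := Finset.exists_subset_card_eq hc
      have hm0 : m = 0 := by
        refine indepK S hSc m ?_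
        intro k hk
        have hkT : k ∉ T := Finset.mem_compl.mp (hS hk)
        have h1 := hm k
        rw [hμ k hkT] at h1
        exact (mul_eq_zero.mp h1.symm).resolve_left (Lam_ne k)
      ext k
      rw [hm k, hm0]
      simp
    · -- degree 3
      have hT1 : T.card ≤ 19 := hT
      obtain ⟨c, hc⟩ := ann3_char hA
      obtain ⟨k, hk⟩ : ∃ k, k ∉ T := by
        by_contra hcon
        push Not at hcon
        have : T = Finset.univ := Finset.eq_univ_iff_forall.mpr hcon
        rw [this] at hT1
        simp at hT1
      have h1 := hc k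
      rw [hμ k hk] at h1
      have hc0 : c = 0 := (mul_eq_zero.mp h1.symm).resolve_right (Lam_ne k)
      ext j
      rw [hc j, hc0]
      simp
    · exact ann_ge4_zero (by omega) hA
  have hr : LinearMap.range (E K T d) = ⊤ := by
    rw [LinearMap.range_eq_top]
    intro c
    obtain ⟨f, hf, hfc⟩ := interp_forms T d key c
    refine ⟨⟨f, hf⟩, ?_⟩
    ext k
    exact hfc k
  unfold rk
  rw [hr, finrank_top]
  simp

lemma Lam_rel {d : ℕ} (hd : d ≤ 3) (f : MvPolynomial (Fin 6) K) (hf : f.IsHomogeneous d)
    (g : MvPolynomial (Fin 6) K) (hg : g.IsHomogeneous (3 - d)) :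
    ∑ k, Lam K k * (eval (V K k) g * eval (V K k) f) = 0 := by
  have := ann3_Lam (K := K) (g * f) (by
    have h := hg.mul hf
    rwa [Nat.sub_add_cancel hd] at h)
  simpa using this

lemma rk_le_N (T : Finset (Fin 20)) (d : ℕ) : rk K T d ≤ N d := by
  refine (rk_mono (Finset.subset_univ T) d).trans ?_
  have hcast : ∀ k : Fin 20, k ∈ (Finset.univ : Finset (Fin 20)) := Finset.mem_univ
  rcases d with _ | _ | _ | _ | d
  · -- degree 0
    refine (finrank_le_of_det _ {⟨0, hcast 0⟩} ?_).trans (by simp [N])
    rintro _ ⟨f, rfl⟩ h0
    have hf : f.1.IsHomogeneous 0 := f.2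
    rw [← totalDegree_zero_iff_isHomogeneous, totalDegree_eq_zero_iff_eq_C] at hf
    have h1 := h0 ⟨0, hcast 0⟩ (by simp)
    ext k
    change eval (V K _) f.1 = 0 at h1
    change eval (V K k) f.1 = 0
    rw [hf, eval_C] at h1 ⊢
    exact h1
  · -- degree 1
    refine (finrank_le_of_det _ (Finset.univ.filter (fun k => k.1.val < 6)) ?_).trans (by decide)
    rintro _ ⟨f, rfl⟩ h0
    have hf : f.1 ∈ Submodule.span K (Set.range (X : Fin 6 → MvPolynomial (Fin 6) K)) := by
      rw [← homogeneousSubmodule_one_eq_span_X]; exact f.2
    obtain ⟨m, hm⟩ := (Submodule.mem_span_range_iff_exists_fun K).mp hf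
    have hev : ∀ k, eval (V K k) f.1 = m ⬝ᵥ V K k := by
      intro k
      rw [← hm]
      simp [dotProduct, smul_eval]
    have hm0 : m = 0 := by
      refine indepK (Finset.univ.filter (fun k : Fin 20 => k.val < 6)) (by decide) m ?_
      intro k hk
      rw [← hev k]
      exact h0 ⟨k, hcast k⟩ (by simpa using hk)
    ext k
    change eval (V K k) f.1 = 0
    rw [hev, hm0]
    simp
  · -- degree 2
    refine (finrank_le_of_det _ (Finset.univ.filter (fun k => k.1.val < 14)) ?_).trans (by decide)
    rintro _ ⟨f, rfl⟩ h0
    have hz : (fun k => Lam K k * eval (V K k) f.1) = 0 := by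
      refine indepK' (Finset.univ.filter (fun k : Fin 20 => 14 ≤ k.val)) (by decide) _ ?_ ?_
      · intro k hk
        have hk' : k.val < 14 := by simpa using hk
        have := h0 ⟨k, hcast k⟩ (by simpa using hk')
        change eval (V K k) f.1 = 0 at this
        rw [this, mul_zero]
      · intro j
        have := Lam_rel (K := K) (d := 2) (by norm_num) f.1 f.2 (X j) (isHomogeneous_X _ _)
        rw [← this]
        refine Finset.sum_congr rfl (fun k _ => ?_)
        rw [eval_X]; ring
    ext k
    change eval (V K k) f.1 = 0
    exact (mul_eq_zero.mp (congrFun hz k)).resolve_left (Lam_ne _)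
  · -- degree 3
    refine (finrank_le_of_det _ (Finset.univ.filter (fun k => k.1.val < 19)) ?_).trans (by decide)
    rintro _ ⟨f, rfl⟩ h0
    have hlt : ∀ k : Fin 20, k.val < 19 → eval (V K k) f.1 = 0 := by
      intro k hk
      exact h0 ⟨k, hcast k⟩ (by simpa using hk)
    have hrel := ann3_Lam (K := K) f.1 f.2
    rw [Finset.sum_eq_single (19 : Fin 20)] at hrel
    · have h19 := (mul_eq_zero.mp hrel).resolve_left (Lam_ne _)
      ext k
      change eval (V K k) f.1 = 0
      by_cases hk : k.1.val < 19
      · exact hlt k hk
      · have : k.1 = 19 := by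
          ext; have := k.1.isLt; simp; omega
        rw [this]; exact h19
    · intro k _ hk
      rw [hlt k, mul_zero]
      have := k.isLt
      by_contra hcon
      apply hk
      ext; simp; omega
    · intro h; exact absurd (Finset.mem_univ _) h
  · refine (rk_le_card _ _).trans (by simp [N])

/-- The rank of the evaluation map on any subset of the twenty points. -/
theorem rk_eq (T : Finset (Fin 20)) (d : ℕ) : rk K T d = min T.card (N d) := by
  by_cases h : T.card ≤ N d
  · rw [surj_small T d h, min_eq_left h]
  · push Not at h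
    rw [min_eq_right h.le]
    obtain ⟨T', hT', hc⟩ := Finset.exists_subset_card_eq h.le
    refine le_antisymm (rk_le_N T d) ?_
    have h1 := surj_small (K := K) T' d hc.le
    rw [← hc, ← h1]
    exact rk_mono hT' d

end Pool.Agent.Lib_MP_8a2735_ag
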